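import Pool.Agent.L0h50.NR.Stm

/-! Module ALG of project NR. -/

set_option autoImplicit false

open NumberField Polynomial
open scoped Classical

namespace Pool.Agent.L0h19.NR

open Pool.Agent.L0h50.NR
open Pool.Agent.L0h45.AR (Q4)

/-- the form -/
noncomputable def frm {F : Type} [Field F] (A s ρ t k : F) : Q4 F :=
  ⟨s ^ 2, 4 * k, 6 * (k ^ 2 - ρ) / s ^ 2, 4 * (k ^ 3 - 3 * ρ * k + 2 * t) / s ^ 4,
    (k ^ 4 - 6 * ρ * k ^ 2 + 8 * t * k - 3 * ρ ^ 2 - 4 * A * s ^ 4) / s ^ 6⟩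

theorem frm_I {F : Type} [Field F] (A s ρ t k : F) (hs : s ≠ 0) :
    (frm A s ρ t k).I = - 48 * A := by
  unfold frm Q4.I
  field_simp
  ring

theorem frm_J {F : Type} [Field F] (A B s ρ t k : F) (hs : s ≠ 0)
    (h : t ^ 2 = ρ ^ 3 + A * ρ * s ^ 4 + B * s ^ 6) :
    (frm A s ρ t k).J = - 1728 * B := by
  have hB : B = (t ^ 2 - ρ ^ 3 - A * ρ * s ^ 4) / s ^ 6 := by
    field_simp
    linear_combination - h
  rw [hB]
  unfold frm Q4.J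
  field_simp
  ring

section
variable {F : Type} [Field F] (A B s ρ t u w n : F)

theorem id_c (hs : s ≠ 0) (hn : n ≠ 0) (h1 : n = ρ * u + s ^ 6 * w)
    (h2 : t ^ 2 = ρ ^ 3 + A * ρ * s ^ 4 + B * s ^ 6) :
    n ^ 4 * (6 * ((u * t / n) ^ 2 - ρ) / s ^ 2) =
      6 * n ^ 2 * s ^ 2 * (A * u ^ 2 * ρ + s ^ 2 * (B * u ^ 2 + ρ * (-2 * n * w + s ^ 6 * w ^ 2))) := by
  have hB : B = (t ^ 2 - ρ ^ 3 - A * ρ * s ^ 4) / s ^ 6 := by
    field_simp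
    linear_combination - h2
  rw [hB]
  subst h1
  field_simp
  ring

theorem id_d (hs : s ≠ 0) (hn : n ≠ 0) (h1 : n = ρ * u + s ^ 6 * w)
    (h2 : t ^ 2 = ρ ^ 3 + A * ρ * s ^ 4 + B * s ^ 6) :
    n ^ 4 * (4 * ((u * t / n) ^ 3 - 3 * ρ * (u * t / n) + 2 * t) / s ^ 4) =
      4 * (u * t * (A * u ^ 2 * ρ + s ^ 2 * (B * u ^ 2 + ρ * (-2 * n * w + s ^ 6 * w ^ 2))) * n +
        2 * t * s ^ 2 * w * n ^ 3) := by
  have hB : B = (t ^ 2 - ρ ^ 3 - A * ρ * s ^ 4) / s ^ 6 := by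
    field_simp
    linear_combination - h2
  rw [hB]
  subst h1
  field_simp
  ring

theorem id_e (hs : s ≠ 0) (hn : n ≠ 0) (h1 : n = ρ * u + s ^ 6 * w)
    (h2 : t ^ 2 = ρ ^ 3 + A * ρ * s ^ 4 + B * s ^ 6) :
    n ^ 4 * (((u * t / n) ^ 4 - 6 * ρ * (u * t / n) ^ 2 + 8 * t * (u * t / n) - 3 * ρ ^ 2 -
      4 * A * s ^ 4) / s ^ 6) =
      4 * n ^ 2 * (A * s ^ 4 * (-2 * n * w + s ^ 6 * w ^ 2) +
        ρ * (B * u ^ 2 + ρ * (-2 * n * w + s ^ 6 * w ^ 2))) +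
      s ^ 2 * (A * u ^ 2 * ρ + s ^ 2 * (B * u ^ 2 + ρ * (-2 * n * w + s ^ 6 * w ^ 2))) ^ 2 +
      8 * w * u * t ^ 2 * n ^ 2 := by
  have hB : B = (t ^ 2 - ρ ^ 3 - A * ρ * s ^ 4) / s ^ 6 := by
    field_simp
    linear_combination - h2
  rw [hB]
  subst h1
  field_simp
  ring

end

theorem alg : S_ALG := by
  intro F _ _ n hn
  refine ⟨n ^ 4, pow_pos hn 4, ?_⟩
  intro A B x y s ρ t u w hxy hs hρ ht hnn
  have hs' : (s : F) ≠ 0 := by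
    intro h
    exact hs (RingOfIntegers.coe_eq_zero_iff.1 h)
  have hn' : (n : F) ≠ 0 := Nat.cast_ne_zero.2 hn.ne'
  have h1 : (n : F) = ρ * u + (s : F) ^ 6 * w := by
    have := congrArg (fun z : 𝓞 F => (z : F)) hnn
    simpa using this
  have h2 : (t : F) ^ 2 = (ρ : F) ^ 3 + A * ρ * (s : F) ^ 4 + B * (s : F) ^ 6 := by
    rw [ht, hρ]
    linear_combination (s : F) ^ 6 * hxy
  refine ⟨frm A s ρ t (u * t / n), 4 * s, frm_I _ _ _ _ _ hs', frm_J _ _ _ _ _ _ hs' h2,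
    mul_ne_zero (by norm_num) hs', ⟨?_, ?_, ?_, ?_, ?_⟩, ?_⟩
  · refine ⟨(n : 𝓞 F) ^ 4 * s ^ 2, ?_⟩
    simp [frm]
  · refine ⟨4 * (n : 𝓞 F) ^ 3 * (u * t), ?_⟩
    simp only [frm]
    push_cast
    simp only [map_ofNat]
    field_simp
  · refine ⟨6 * (n : 𝓞 F) ^ 2 * s ^ 2 *
      (A * u ^ 2 * ρ + s ^ 2 * (B * u ^ 2 + ρ * (-2 * n * w + s ^ 6 * w ^ 2))), ?_⟩
    simp only [frm]
    push_cast
    rw [id_c (A : F) B s ρ t u w n hs' hn' h1 h2]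
    simp only [map_ofNat]
  · refine ⟨4 * (u * t * (A * u ^ 2 * ρ + s ^ 2 *
      (B * u ^ 2 + ρ * (-2 * (n : 𝓞 F) * w + s ^ 6 * w ^ 2))) * n +
        2 * t * s ^ 2 * w * (n : 𝓞 F) ^ 3), ?_⟩
    simp only [frm]
    push_cast
    rw [id_d (A : F) B s ρ t u w n hs' hn' h1 h2]
    simp only [map_ofNat]
  · refine ⟨4 * (n : 𝓞 F) ^ 2 * (A * s ^ 4 * (-2 * n * w + s ^ 6 * w ^ 2) +
        ρ * (B * u ^ 2 + ρ * (-2 * n * w + s ^ 6 * w ^ 2))) +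
      s ^ 2 * (A * u ^ 2 * ρ + s ^ 2 * (B * u ^ 2 + ρ * (-2 * n * w + s ^ 6 * w ^ 2))) ^ 2 +
      8 * w * u * t ^ 2 * n ^ 2, ?_⟩
    simp only [frm]
    push_cast
    rw [id_e (A : F) B s ρ t u w n hs' hn' h1 h2]
    simp only [map_ofNat]
  · unfold zz frm
    have e1 : (4 * ((u : F) * t / n)) ^ 2 - 8 / 3 * ((s : F) ^ 2 *
        (6 * (((u : F) * t / n) ^ 2 - ρ) / (s : F) ^ 2)) = (4 * (s : F)) ^ 2 * x := by
      rw [hρ]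
      field_simp
      ring
    have e2 : 16 * (s : F) ^ 2 = (4 * (s : F)) ^ 2 := by ring
    simp only
    rw [e1, e2, map_mul]
    ring

end Pool.Agent.L0h19.NR
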